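import Mathlib
import Pool.Agent.Lib_helper29.QHolDefs
import Pool.Agent.Lib_helper29.QHolProofs

set_option autoImplicit false

namespace Pool.Agent.Results.MP_036866_al.NotConjClosed

open Pool.Agent.Lib_helper29.QHol

/-- There is a finite group `G` (of order 32) with `𝒬(G)` a proper subset of `𝒮(G) ∩ ℛ(G)` such
that no representative set `π(𝒬(G))` is conj-closed. -/
theorem result : ∃ (G : Type) (_ : Group G) (_ : Finite G), Nat.card G = 32 ∧
    QQ G ⊂ SS G ∩ RR G ∧ ∀ A, IsRepSet G A → ¬ ConjClosed G A :=
  exists_bad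

end Pool.Agent.Results.MP_036866_al.NotConjClosed
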